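import Pool.Agent.SKS.Gen

/-!
# MP_a667dc_co: `|S_{k+1}| ≤ (n - k) / (k + 1) |S_k|` for `3 n ≥ k ^ 2 + 7 k + 9`

`A` is a set of `n` integers, `S_k` the set of the sums of `k` distinct elements of `A`.  (The
hypothesis implies `2 k < n`.)

Proof (`Pool.Agent.SKS.Gen` for `k ≥ 3`): for `t ∈ S_k` let `I t`
and `V t` be the intersection and the union of the `k`-subsets with sum `t`, and `V s` the union of the
`(k + 1)`-subsets with sum `s`.  Counting the pairs `(s, z)`, `z ∈ V s`, and `(t, z)`, `z ∉ I t`,
`s = t + z`, it is enough that `∑_t (k - |I t|) ≤ ∑_s (|V s| - (k + 1))`.  Every `t` distributes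
`k - |I t|` to the sums `s = t + z`, `z ∈ A ∖ V t` (or outside of the union of two or three of its
`k`-subsets); if `|V t| = k + 2`, only to those `z` whose partner is not in `V t`.  Every `s` receives
at most `|V s| - (k + 1)`.
-/

set_option autoImplicit false

namespace Pool.Agent.Results.MP_a667dc_co.LargerRange

open Finset Pool.Agent.SKS

theorem result (A : Finset ℤ) (k : ℕ) (h : k ^ 2 + 7 * k + 9 ≤ 3 * A.card) :
    (((A.powersetCard (k + 1)).image (fun B => ∑ a ∈ B, a)).card : ℚ) ≤
      (((A.card : ℚ) - k) / ((k : ℚ) + 1)) *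
        (((A.powersetCard k).image (fun B => ∑ a ∈ B, a)).card : ℚ) := by
  have hk1 : (0 : ℚ) < (k : ℚ) + 1 := by positivity
  rw [div_mul_eq_mul_div, le_div_iff₀ hk1, mul_comm]
  rcases Nat.lt_or_ge k 3 with h3 | h3
  · interval_cases k
    · -- `k = 0`
      have h1 : ((A.powersetCard (0 + 1)).image (fun B => ∑ a ∈ B, a)).card ≤ A.card := by
        refine card_image_le.trans ?_
        rw [card_powersetCard, Nat.choose_one_right]
      have h2 : ((A.powersetCard 0).image (fun B => ∑ a ∈ B, a)).card = 1 := by simp
      rw [h2]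
      have h1' : (((A.powersetCard (0 + 1)).image (fun B => ∑ a ∈ B, a)).card : ℚ) ≤ A.card := by
        exact_mod_cast h1
      push_cast
      linarith
    · -- `k = 1`
      have h1 : ((A.powersetCard (1 + 1)).image (fun B => ∑ a ∈ B, a)).card ≤
          A.card * (A.card - 1) / 2 := by
        refine card_image_le.trans ?_
        rw [card_powersetCard, Nat.choose_two_right]
      have h2 : ((A.powersetCard 1).image (fun B => ∑ a ∈ B, a)).card = A.card := by
        rw [card_image_of_injOn, card_powersetCard, Nat.choose_one_right]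
        intro B hB B' hB' hs
        rw [mem_coe, mem_powersetCard] at hB hB'
        obtain ⟨x, rfl⟩ := card_eq_one.1 hB.2
        obtain ⟨y, rfl⟩ := card_eq_one.1 hB'.2
        simp only [sum_singleton] at hs
        rw [hs]
      rw [h2]
      have h4 : 2 * ((A.powersetCard (1 + 1)).image (fun B => ∑ a ∈ B, a)).card ≤
          A.card * (A.card - 1) := by
        have := Nat.div_mul_le_self (A.card * (A.card - 1)) 2
        omega
      have h5 : (2 : ℚ) * (((A.powersetCard (1 + 1)).image (fun B => ∑ a ∈ B, a)).card : ℚ) ≤
          A.card * (A.card - 1) := by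
        have h6 : 1 ≤ A.card := by omega
        have h7 : ((A.card - 1 : ℕ) : ℚ) = (A.card : ℚ) - 1 := by
          rw [Nat.cast_sub h6]
          simp
        rw [← h7]
        exact_mod_cast h4
      push_cast
      linarith
    · -- `k = 2`
      have h1 := main (A := A) (by omega)
      have h2 : (3 : ℚ) * (S A 3).card + 2 * (S A 2).card ≤ A.card * (S A 2).card := by
        exact_mod_cast h1
      change _ * ((S A (2 + 1)).card : ℚ) ≤ _ * ((S A 2).card : ℚ)
      push_cast
      linarith
  · exact gen h3 (by rw [← sq]; exact h)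

end Pool.Agent.Results.MP_a667dc_co.LargerRange
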