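import Pool.Agent.SKS.Two

/-!
# MP_a667dc_co, `k = 2`: `|S_3| ≤ (n - 2) / 3 |S_2|` for every set of `n ≥ 5` integers

Proof: see `Pool.Agent.SKS.Two`.  Counting the pairs `(s, b)`, `b` in the union `U s` of the triples
with sum `s`, in two ways shows that it is enough that `2 |T| ≤ ∑_s (|U s| - 3)`, where `T` is the
set of the sums of two different pairs.  Every `t ∈ T` has at least `n - 4` elements `b` which have
degree at least `2` (exactly `2`, if `n = 7`) in the system of triples with sum `t + b`, and for given
`s` the number `c` of these `b` satisfies `2 c ≤ (n - 4) (|U s| - 3)`: the triples with sum `s`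
are a linear triple system; the sum of the degrees is divisible by `3`, and six points of degree
`2` are impossible.
-/

set_option autoImplicit false

namespace Pool.Agent.Results.MP_a667dc_co.ThreeElementSums

open Finset Pool.Agent.SKS

theorem result (A : Finset ℤ) (h : 2 * 2 < A.card) :
    (((A.powersetCard 3).image (fun B => ∑ a ∈ B, a)).card : ℚ) ≤
      (((A.card : ℚ) - 2) / 3) *
        (((A.powersetCard 2).image (fun B => ∑ a ∈ B, a)).card : ℚ) := by
  rw [div_mul_eq_mul_div, le_div_iff₀ (by norm_num), mul_comm]
  have h1 := main (A := A) (by omega)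
  have h2 : (3 : ℚ) * (S A 3).card + 2 * (S A 2).card ≤ A.card * (S A 2).card := by
    exact_mod_cast h1
  change 3 * ((S A 3).card : ℚ) ≤ _ * ((S A 2).card : ℚ)
  linarith

end Pool.Agent.Results.MP_a667dc_co.ThreeElementSums
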